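import Pool.Agent.Y262.EG.Stm

set_option autoImplicit false
set_option linter.all false

/-! # Project EG: closure properties of the `C¹` functions; ergodicity (assembly) -/

open Set Filter Topology MeasureTheory
open scoped ContDiff

noncomputable section

namespace Pool.Agent.Y447.EG

open Pool.Agent.Y262.EG

theorem algP : StAlgP := by
  intro M P _ _ _ _ Ω φ pr q hUT
  refine ⟨contDiffOn_const, fun F G hF hG α β => ?_, fun F G hF hG => ?_, fun F hF h0 => ?_⟩
  · exact (contDiffOn_const.mul hF).add (contDiffOn_const.mul hG)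
  · exact ContDiffOn.mul hF hG
  · exact ContDiffOn.inv hF (fun p _ => h0 (q p))

theorem erg (h1 : StFlP) (h2 : StKP) (h3 : StPk) (h4 : StKill) (h5 : StLoc) (h6 : StGlob) :
    StErg := by
  classical
  intro M P _ _ _ _ _ _ Ω φ pr q m Fl L δ δ' κ C g hUT hLi hGeo hCls A hA hinv
  obtain ⟨c, c1, s, s1, hPk⟩ := h3 M P Ω φ pr q m Fl L δ δ' κ C g hUT hLi hGeo hCls
  obtain ⟨hfl1, -, -, -⟩ := h1 M P Ω φ pr q Fl hUT hGeo
  set f : P → ℝ := A.indicator fun _ => 1 with hf
  have hfm : Measurable f := measurable_const.indicator hA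
  have hfb : ∃ C, ∀ x, |f x| ≤ C := by
    refine ⟨1, fun x => ?_⟩
    rw [hf]
    by_cases hx : x ∈ A
    · rw [indicator_of_mem hx, abs_one]
    · rw [indicator_of_notMem hx, abs_zero]
      exact zero_le_one
  have hff : ∀ t x, f (FlP Ω q Fl t x) = f x := by
    intro t x
    have hx : x ∈ q '' YO Ω := by
      rw [hUT.surjq]
      exact mem_univ x
    obtain ⟨p, hp, rfl⟩ := hx
    rw [hfl1 t p hp]
    have h := hinv t p hp
    by_cases hq : q p ∈ A
    · rw [hf, indicator_of_mem hq, indicator_of_mem (h.2 hq)]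
    · rw [hf, indicator_of_notMem hq, indicator_of_notMem (fun hc => hq (h.1 hc))]
  have hloc : ∀ p0 ∈ YO Ω, curv φ p0.1 < 0 → ∃ (r a : ℝ), 0 < r ∧ Metric.ball p0 r ⊆ YO Ω ∧
      ∀ᵐ p ∂volume.restrict (Metric.ball p0 r), f (q p) = a := by
    refine h5 M P Ω φ pr q m hUT hLi f hfm hfb ?_
    intro χ ε hχ hε hχε W hW
    obtain ⟨k1, k2, k3⟩ := h4 P m (FlP Ω q Fl) (AcP Ω q) (dW Ω q (XX φ)) (dW Ω q (HH φ))
      (dW Ω q fun _ => VV) (kP Ω φ q) c c1 s s1 hPk f hfm hfb hff χ ε hχ hε hχε
    rcases hW with rfl | rfl | rfl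
    · exact k1
    · exact k2
    · exact k3
  obtain ⟨a, ha⟩ := h6 M P Ω φ pr q m Fl L δ δ' κ C g hUT hLi hGeo hCls f hfm hff hloc
  by_cases h0 : a = 0
  · left
    refine measure_mono_null ?_ ha
    intro x hx
    show ¬ f x = a
    rw [h0, hf, indicator_of_mem hx]
    exact one_ne_zero
  · by_cases h10 : a = 1
    · right
      refine measure_mono_null ?_ ha
      intro x hx
      show ¬ f x = a
      rw [h10, hf, indicator_of_notMem hx]
      exact zero_ne_one
    · left
      refine measure_mono_null ?_ ha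
      intro x hx
      show ¬ f x = a
      rw [hf, indicator_of_mem hx]
      exact fun hc => h10 hc.symm

end Pool.Agent.Y447.EG
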