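import Pool.Agent.Y262.EG.Stm

set_option autoImplicit false
set_option linter.all false

/-! # Project EG: the measure of the almost parallel vectors -/

open Set Filter Topology MeasureTheory
open scoped ContDiff

noncomputable section

namespace Pool.Agent.Y447.EG

open Pool.Agent.Y262.EG

theorem sin_key (x y : ℝ) (hx : 0 ≤ x) (hxy : x ≤ y) (hy : y ≤ Real.pi / 2) :
    2 * ((y - x) / Real.pi) ^ 2 ≤ |(|Real.sin y| - |Real.sin x|)| := by
  have hpi := Real.pi_pos
  have h1 : 0 ≤ Real.sin x := Real.sin_nonneg_of_nonneg_of_le_pi hx (by linarith)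
  have h2 : 0 ≤ Real.sin y := Real.sin_nonneg_of_nonneg_of_le_pi (by linarith) (by linarith)
  rw [abs_of_nonneg h1, abs_of_nonneg h2]
  refine le_trans ?_ (le_abs_self _)
  rw [Real.sin_sub_sin]
  set t := (y - x) / 2 with ht
  have ht0 : 0 ≤ t := by rw [ht]; linarith
  have ht1 : t ≤ Real.pi / 2 := by rw [ht]; linarith
  have h3 : 2 / Real.pi * t ≤ Real.sin t := Real.mul_le_sin ht0 ht1
  have h4 : Real.sin t ≤ Real.cos ((y + x) / 2) := by
    rw [← Real.cos_pi_div_two_sub]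
    apply Real.cos_le_cos_of_nonneg_of_le_pi
    · linarith
    · linarith
    · rw [ht]; linarith
  have h5 : 0 ≤ 2 / Real.pi * t := by positivity
  have e : 2 * ((y - x) / Real.pi) ^ 2 = 2 * (2 / Real.pi * t) * (2 / Real.pi * t) := by
    rw [ht]; ring
  rw [e]
  have h6 : (2 / Real.pi * t) * (2 / Real.pi * t) ≤ Real.sin t * Real.cos ((y + x) / 2) :=
    mul_le_mul h3 (h3.trans h4) h5 (h5.trans h3)
  nlinarith [h6]

theorem piece (a ε : ℝ) (ha : 0 < a) (h0 : 0 ≤ ε) (h1 : ε ≤ 1 / 2) (lo hi : ℝ)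
    (hf : ∀ x y, lo ≤ x → x ≤ y → y ≤ hi →
      2 * ((y - x) / Real.pi) ^ 2 ≤ |(|Real.sin y| - |Real.sin x|)|) :
    volume {θ : ℝ | θ ∈ Icc lo hi ∧ |a * (|Real.sin θ|) - 1| ≤ ε} ≤
      ENNReal.ofReal (10 * Real.sqrt ε) := by
  have hpi := Real.pi_pos
  have hpi2 : Real.pi ^ 2 ≤ 10 := by
    have := Real.pi_lt_d2
    nlinarith
  have hd : ∀ x y, lo ≤ x → x ≤ y → y ≤ hi → |a * (|Real.sin x|) - 1| ≤ ε →
      |a * (|Real.sin y|) - 1| ≤ ε → y - x ≤ 5 * Real.sqrt ε := by
    intro x y hx hxy hy h2 h3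
    have h4 := hf x y hx hxy hy
    rw [abs_le] at h2 h3
    have h5 : |Real.sin x| ≤ 1 := Real.abs_sin_le_one x
    have ha2 : 1 / 2 ≤ a := by nlinarith [abs_nonneg (Real.sin x)]
    have h6 : |(|Real.sin y| - |Real.sin x|)| ≤ 4 * ε := by
      rw [abs_le]
      constructor <;> nlinarith
    have h7 : 2 * ((y - x) / Real.pi) ^ 2 ≤ 4 * ε := h4.trans h6
    have h8 : (y - x) ^ 2 ≤ 25 * ε := by
      have e : (y - x) ^ 2 = ((y - x) / Real.pi) ^ 2 * Real.pi ^ 2 := by
        field_simp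
      rw [e]
      nlinarith [sq_nonneg ((y - x) / Real.pi)]
    have h9 : 25 * ε = (5 * Real.sqrt ε) ^ 2 := by
      rw [mul_pow, Real.sq_sqrt h0]; ring
    rw [h9] at h8
    exact (abs_le_of_sq_le_sq' h8 (by positivity)).2
  rcases Set.eq_empty_or_nonempty {θ : ℝ | θ ∈ Icc lo hi ∧ |a * (|Real.sin θ|) - 1| ≤ ε} with
    he | ⟨θ0, ⟨hθ0, hθ0'⟩⟩
  · rw [he]; simp
  · have hsub : {θ : ℝ | θ ∈ Icc lo hi ∧ |a * (|Real.sin θ|) - 1| ≤ ε} ⊆
        Icc (θ0 - 5 * Real.sqrt ε) (θ0 + 5 * Real.sqrt ε) := by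
      rintro θ ⟨hθ, hθ'⟩
      have hs := Real.sqrt_nonneg ε
      rcases le_total θ θ0 with h | h
      · have := hd θ θ0 hθ.1 h hθ0.2 hθ' hθ0'
        constructor <;> linarith
      · have := hd θ0 θ hθ0.1 h hθ.2 hθ0' hθ'
        constructor <;> linarith
    refine (measure_mono hsub).trans ?_
    rw [Real.volume_Icc]
    apply ENNReal.ofReal_le_ofReal
    linarith

theorem sinm : StSin := by
  refine ⟨40, fun a ε ha h0 h1 => ?_⟩
  have hpi := Real.pi_pos
  rcases le_or_gt ε (1 / 2) with h2 | h2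
  · have hsub : {θ : ℝ | θ ∈ Icc 0 (2 * Real.pi) ∧ |a * (|Real.sin θ|) - 1| ≤ ε} ⊆
        (({θ : ℝ | θ ∈ Icc 0 (Real.pi / 2) ∧ |a * (|Real.sin θ|) - 1| ≤ ε} ∪
          {θ : ℝ | θ ∈ Icc (Real.pi / 2) Real.pi ∧ |a * (|Real.sin θ|) - 1| ≤ ε}) ∪
        ({θ : ℝ | θ ∈ Icc Real.pi (3 * Real.pi / 2) ∧ |a * (|Real.sin θ|) - 1| ≤ ε} ∪
          {θ : ℝ | θ ∈ Icc (3 * Real.pi / 2) (2 * Real.pi) ∧ |a * (|Real.sin θ|) - 1| ≤ ε})) := by
      rintro θ ⟨hθ, hθ'⟩
      rcases le_total θ Real.pi with h | h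
      · left
        rcases le_total θ (Real.pi / 2) with h' | h'
        · exact Or.inl ⟨⟨hθ.1, h'⟩, hθ'⟩
        · exact Or.inr ⟨⟨h', h⟩, hθ'⟩
      · right
        rcases le_total θ (3 * Real.pi / 2) with h' | h'
        · exact Or.inl ⟨⟨h, h'⟩, hθ'⟩
        · exact Or.inr ⟨⟨h', hθ.2⟩, hθ'⟩
    have p1 := piece a ε ha h0 h2 0 (Real.pi / 2) sin_key
    have p2 := piece a ε ha h0 h2 (Real.pi / 2) Real.pi (by
      intro x y hx hxy hy
      have := sin_key (Real.pi - y) (Real.pi - x) (by linarith) (by linarith) (by linarith)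
      rw [Real.sin_pi_sub, Real.sin_pi_sub, abs_sub_comm] at this
      convert this using 3
      ring)
    have p3 := piece a ε ha h0 h2 Real.pi (3 * Real.pi / 2) (by
      intro x y hx hxy hy
      have := sin_key (x - Real.pi) (y - Real.pi) (by linarith) (by linarith) (by linarith)
      rw [Real.sin_sub_pi, Real.sin_sub_pi, abs_neg, abs_neg] at this
      convert this using 3
      ring)
    have p4 := piece a ε ha h0 h2 (3 * Real.pi / 2) (2 * Real.pi) (by
      intro x y hx hxy hy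
      have := sin_key (2 * Real.pi - y) (2 * Real.pi - x) (by linarith) (by linarith)
        (by linarith)
      rw [Real.sin_two_pi_sub, Real.sin_two_pi_sub, abs_neg, abs_neg, abs_sub_comm] at this
      convert this using 3
      ring)
    refine (measure_mono hsub).trans ?_
    refine (measure_union_le _ _).trans ?_
    refine (add_le_add (measure_union_le _ _) (measure_union_le _ _)).trans ?_
    refine (add_le_add (add_le_add p1 p2) (add_le_add p3 p4)).trans ?_
    have hs := Real.sqrt_nonneg ε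
    rw [← ENNReal.ofReal_add (by positivity) (by positivity),
      ← ENNReal.ofReal_add (by positivity) (by positivity)]
    apply ENNReal.ofReal_le_ofReal
    linarith
  · refine (measure_mono (fun θ hθ => hθ.1 : _ ⊆ Icc 0 (2 * Real.pi))).trans ?_
    rw [Real.volume_Icc]
    apply ENNReal.ofReal_le_ofReal
    have h3 : 1 / 2 ≤ Real.sqrt ε := by
      apply Real.le_sqrt_of_sq_le
      linarith
    have := Real.pi_lt_d2
    linarith

end Pool.Agent.Y447.EG
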