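import Pool.Agent.Y262.EG.Stm

set_option autoImplicit false
set_option linter.all false

/-! # Project EG: conformal changes of the metric -/

open Set Filter Topology MeasureTheory
open scoped ContDiff

noncomputable section

namespace Pool.Agent.Y447.EG

open Pool.Agent.Y262.EG

theorem germ_iff {M : Type} (Ω : Set ℂ) (φ : ℂ → ℝ) (pr : ℂ → M) (h : M → ℝ) (s : ℝ) (p p' : Y) :
    Pool.Agent.Y262.EG.Germ Ω (fun z => φ z + s / 2 * h (pr z)) pr p p' ↔
      Pool.Agent.Y262.EG.Germ Ω φ pr p p' := by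
  unfold Pool.Agent.Y262.EG.Germ
  constructor
  · rintro ⟨r, γ, h1, h2, h3, h4, h5, h6⟩
    refine ⟨r, γ, h1, h2, h3, h4, fun ζ hζ => ?_, h6⟩
    obtain ⟨k1, k2, k3, k4⟩ := h5 ζ hζ
    refine ⟨k1, k2, k3, ?_⟩
    simp only at k4
    rw [k2] at k4
    linarith
  · rintro ⟨r, γ, h1, h2, h3, h4, h5, h6⟩
    refine ⟨r, γ, h1, h2, h3, h4, fun ζ hζ => ?_, h6⟩
    obtain ⟨k1, k2, k3, k4⟩ := h5 ζ hζ
    refine ⟨k1, k2, k3, ?_⟩
    simp only
    rw [k2]
    linarith

theorem uTs : StUTs := by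
  intro M P _ _ _ _ Ω φ pr q hUT h hh s
  refine ⟨?_, ?_⟩
  · refine
      { opn := hUT.opn
        smooth := hUT.smooth.add (contDiffOn_const.mul hh)
        contp := hUT.contp
        opnp := hUT.opnp
        surjp := hUT.surjp
        injp := hUT.injp
        contq := hUT.contq
        opnq := hUT.opnq
        surjq := hUT.surjq
        rel := fun p hp p' hp' => ?_
        deck := fun z hz w hw hzw θ => ?_ }
    · rw [germ_iff]
      exact hUT.rel p hp p' hp'
    · obtain ⟨θ', hθ'⟩ := hUT.deck z hz w hw hzw θ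
      exact ⟨θ', (germ_iff Ω φ pr h s _ _).2 hθ'⟩
  · intro D hD i
    obtain ⟨b, hb1, hb2⟩ := hD i
    refine ⟨b, hb1, fun z hz => ?_⟩
    obtain ⟨k1, k2, k3, k4⟩ := hb2 z hz
    refine ⟨k1, k2, k3, fun v => ?_⟩
    have e1 : (D.conf fun x => Real.exp (s * h x)).A i z =
        Real.sqrt (Real.exp (s * h (D.ψ i z))) • D.A i z := rfl
    have e2 : Real.sqrt (Real.exp (s * h (D.ψ i z))) = Real.exp (s / 2 * h (pr (b z))) := by
      rw [k2, Real.sqrt_eq_iff_mul_self_eq (Real.exp_pos _).le (Real.exp_pos _).le,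
        ← Real.exp_add]
      congr 1
      ring
    rw [e1, e2]
    change ‖Real.exp (s / 2 * h (pr (b z))) • D.A i z v‖ = _
    rw [norm_smul, k4 v, Real.norm_of_nonneg (Real.exp_pos _).le, Real.exp_add]
    ring

end Pool.Agent.Y447.EG
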