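import Pool.Agent.Y262.EG.Stm

set_option autoImplicit false
set_option linter.all false

/-! # Project EG: invariance of the curvature -/

open Set Filter Topology MeasureTheory
open scoped ContDiff

noncomputable section

namespace Pool.Agent.Y447.EG

open Pool.Agent.Y262.EG

theorem smooth_px {Ω : Set ℂ} (ho : IsOpen Ω) {φ : ℂ → ℝ} (h : ContDiffOn ℝ ∞ φ Ω) :
    ContDiffOn ℝ ∞ (px φ) Ω := by
  have h1 : ContDiffOn ℝ ∞ (fderiv ℝ φ) Ω := h.fderiv_of_isOpen ho (by simp)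
  exact h1.clm_apply contDiffOn_const

theorem smooth_py {Ω : Set ℂ} (ho : IsOpen Ω) {φ : ℂ → ℝ} (h : ContDiffOn ℝ ∞ φ Ω) :
    ContDiffOn ℝ ∞ (py φ) Ω := by
  have h1 : ContDiffOn ℝ ∞ (fderiv ℝ φ) Ω := h.fderiv_of_isOpen ho (by simp)
  exact h1.clm_apply contDiffOn_const

theorem smooth_curv {Ω : Set ℂ} (ho : IsOpen Ω) {φ : ℂ → ℝ} (h : ContDiffOn ℝ ∞ φ Ω) :
    ContDiffOn ℝ ∞ (curv φ) Ω := by
  have h1 := smooth_px ho (smooth_px ho h)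
  have h2 := smooth_py ho (smooth_py ho h)
  have h3 : ContDiffOn ℝ ∞ (fun z => Real.exp (-2 * φ z)) Ω :=
    Real.contDiff_exp.comp_contDiffOn (contDiffOn_const.mul h)
  exact (h3.mul (h1.add h2)).neg

theorem norm_mul_comp (A B : ℂ →L[ℝ] ℝ) (c : ℂ) (hc : c ≠ 0) (h : ∀ v, A v = B (c * v)) :
    ‖A‖ = ‖c‖ * ‖B‖ := by
  have hc' : 0 < ‖c‖ := norm_pos_iff.2 hc
  apply le_antisymm
  · refine A.opNorm_le_bound (by positivity) fun v => ?_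
    rw [h v]
    calc ‖B (c * v)‖ ≤ ‖B‖ * ‖c * v‖ := B.le_opNorm _
      _ = ‖c‖ * ‖B‖ * ‖v‖ := by rw [norm_mul]; ring
  · have h2 : ‖B‖ ≤ ‖c‖⁻¹ * ‖A‖ := by
      refine B.opNorm_le_bound (by positivity) fun v => ?_
      have e : B v = A (c⁻¹ * v) := by rw [h, mul_inv_cancel_left₀ hc]
      rw [e]
      calc ‖A (c⁻¹ * v)‖ ≤ ‖A‖ * ‖c⁻¹ * v‖ := A.le_opNorm _
        _ = ‖c‖⁻¹ * ‖A‖ * ‖v‖ := by rw [norm_mul, norm_inv]; ring
    calc ‖c‖ * ‖B‖ ≤ ‖c‖ * (‖c‖⁻¹ * ‖A‖) := by gcongr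
      _ = ‖A‖ := by rw [mul_inv_cancel_left₀ hc'.ne']

theorem inv (hG : StGerm) : StInv := by
  intro M P _ _ _ _ Ω φ pr q hUT z hz w hw hzw
  obtain ⟨θ', r, γ, hr, hsub, hdiff, hγz, hprop, _⟩ := hUT.deck z hz w hw hzw 0
  simp only at hsub hdiff hγz hprop
  have hcurv := (hG Ω φ z r γ hUT.opn hUT.smooth hr hsub hdiff
    (fun ζ hζ => ⟨(hprop ζ hζ).1, (hprop ζ hζ).2.2.1, (hprop ζ hζ).2.2.2⟩)).1
  have hzb : z ∈ Metric.ball z r := Metric.mem_ball_self hr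
  have e1 : curv φ w = curv φ z := by rw [← hγz]; exact hcurv z hzb
  refine ⟨e1.symm, ?_⟩
  have hnb : Metric.ball z r ∈ 𝓝 z := Metric.ball_mem_nhds z hr
  have hγd : HasDerivAt γ (deriv γ z) z := (hdiff.differentiableAt hnb).hasDerivAt
  have hγr := hγd.complexToReal_fderiv
  have hcw : HasFDerivAt (curv φ) (fderiv ℝ (curv φ) w) (γ z) := by
    rw [hγz]
    exact (((smooth_curv hUT.opn hUT.smooth).contDiffAt (hUT.opn.mem_nhds hw)).differentiableAt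
      (by simp)).hasFDerivAt
  have hcomp := hcw.comp z hγr
  have hev : (curv φ ∘ γ) =ᶠ[𝓝 z] curv φ := by
    filter_upwards [hnb] with ζ hζ
    exact hcurv ζ hζ
  have hfd : HasFDerivAt (curv φ) ((fderiv ℝ (curv φ) w).comp (deriv γ z • (1 : ℂ →L[ℝ] ℂ))) z :=
    hcomp.congr_of_eventuallyEq hev.symm
  have hc0 : deriv γ z ≠ 0 := (hprop z hzb).2.2.1
  have hn : ‖fderiv ℝ (curv φ) z‖ = ‖deriv γ z‖ * ‖fderiv ℝ (curv φ) w‖ := by
    refine norm_mul_comp _ _ _ hc0 fun v => ?_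
    rw [hfd.fderiv]
    simp [smul_eq_mul]
  have hlog := (hprop z hzb).2.2.2
  rw [hγz] at hlog
  have hcp : 0 < ‖deriv γ z‖ := norm_pos_iff.2 hc0
  have he : Real.exp (-φ z) * ‖deriv γ z‖ = Real.exp (-φ w) := by
    rw [← hlog, show -(φ w + Real.log ‖deriv γ z‖) = -φ w + -Real.log ‖deriv γ z‖ by ring,
      Real.exp_add, Real.exp_neg (Real.log _), Real.exp_log hcp, mul_assoc,
      inv_mul_cancel₀ hcp.ne', mul_one]
  rw [hn, ← mul_assoc, he]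

end Pool.Agent.Y447.EG
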